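import Pool.Agent.H6.FI.TargetsA

/-!
# MP_7500ea_al, board fi_modules, row PWI: the bound for `C / D`
helper82
-/

set_option autoImplicit false

open scoped Classical
open FI

namespace Pool.Agent.H82.FI

theorem pf_PWI (h1 : T_SEC) (h2 : T_CRN) (h3 : T_TRP) : T_PWI := by
  intro R _ _ U D hR hQ h2U hP
  obtain ⟨W, iW, iF, f, κ, fs, fk, cW, eq⟩ := h1 R U D hQ.nU hQ.nD hQ.UD hQ.com
  have hconj : ∀ (r : R) (d : D), r * d * r⁻¹ ∈ D := fun r d => hQ.nD.conj_mem d d.2 r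
  have inv_top : ∀ B : Subgroup R, Inv κ B (⊤ : AddSubgroup W) := fun _ _ _ _ _ => AddSubgroup.mem_top _
  -- complete reducibility under `R`
  have hCR : CR κ ⊤ (⊤ : AddSubgroup W) := by
    intro X _ hX
    let L : Subgroup R :=
      { carrier := {r | ∃ h : r ∈ D, Multiplicative.toAdd (f ⟨r, h⟩) ∈ X}
        mul_mem' := by
          rintro a b ⟨ha, ha'⟩ ⟨hb, hb'⟩
          refine ⟨D.mul_mem ha hb, ?_⟩
          have : (⟨a * b, D.mul_mem ha hb⟩ : D) = ⟨a, ha⟩ * ⟨b, hb⟩ := rfl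
          rw [this, map_mul, toAdd_mul]
          exact X.add_mem ha' hb'
        one_mem' := by
          refine ⟨D.one_mem, ?_⟩
          have : (⟨1, D.one_mem⟩ : D) = 1 := rfl
          rw [this, map_one, toAdd_one]
          exact X.zero_mem
        inv_mem' := by
          rintro a ⟨ha, ha'⟩
          refine ⟨D.inv_mem ha, ?_⟩
          have : (⟨a⁻¹, D.inv_mem ha⟩ : D) = (⟨a, ha⟩ : D)⁻¹ := rfl
          rw [this, map_inv, toAdd_inv]
          exact X.neg_mem ha' }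
    have hLn : L.Normal := by
      refine ⟨?_⟩
      rintro a ⟨ha, ha'⟩ g
      refine ⟨hQ.nD.conj_mem a ha g, ?_⟩
      rw [← eq g ⟨a, ha⟩ ⟨g * a * g⁻¹, hQ.nD.conj_mem a ha g⟩ rfl]
      exact hX g (Subgroup.mem_top _) _ ha'
    have hUL : U ≤ L := by
      intro u hu
      refine ⟨hQ.UD hu, ?_⟩
      rw [(fk ⟨u, hQ.UD hu⟩).2 hu, toAdd_one]
      exact X.zero_mem
    have hLD : L ≤ D := by
      rintro a ⟨ha, _⟩
      exact ha
    obtain ⟨L', hL'n, hUL', hL'D, hinf, hsup⟩ := hQ.cr L hLn hUL hLD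
    refine ⟨{ carrier := {w | ∃ d : D, (d : R) ∈ L' ∧ Multiplicative.toAdd (f d) = w}
              add_mem' := by
                rintro _ _ ⟨a, ha, rfl⟩ ⟨b, hb, rfl⟩
                exact ⟨a * b, L'.mul_mem ha hb, by rw [map_mul, toAdd_mul]⟩
              zero_mem' := ⟨1, L'.one_mem, by rw [map_one, toAdd_one]⟩
              neg_mem' := by
                rintro _ ⟨a, ha, rfl⟩
                exact ⟨a⁻¹, L'.inv_mem ha, by rw [map_inv, toAdd_inv]⟩ }, le_top, ?_, ?_, ?_⟩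
    · rintro r _ _ ⟨d, hd, rfl⟩
      exact ⟨⟨r * d * r⁻¹, hconj r d⟩, hL'n.conj_mem _ hd r, (eq r d ⟨r * d * r⁻¹, hconj r d⟩ rfl).symm⟩
    · rw [eq_bot_iff]
      rintro w ⟨hw, d, hd, rfl⟩
      have hdL : (d : R) ∈ L := ⟨d.2, hw⟩
      have hdU : (d : R) ∈ U := by
        rw [← hinf]
        exact ⟨hdL, hd⟩
      rw [(fk d).2 hdU, toAdd_one]
      exact AddSubgroup.zero_mem _
    · rw [eq_top_iff]
      intro w _
      obtain ⟨d, hd⟩ := fs (Multiplicative.ofAdd w)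
      have hdD : (d : R) ∈ L ⊔ L' := by
        rw [hsup]
        exact d.2
      have := hL'n
      rw [← SetLike.mem_coe, Subgroup.mul_normal, Set.mem_mul] at hdD
      obtain ⟨l, ⟨hlD, hlX⟩, l', hl', hll⟩ := hdD
      have hl'D : l' ∈ D := hL'D hl'
      have hde : d = ⟨l, hlD⟩ * ⟨l', hl'D⟩ := Subtype.ext hll.symm
      have hw : w = Multiplicative.toAdd (f ⟨l, hlD⟩) + Multiplicative.toAdd (f ⟨l', hl'D⟩) := by
        rw [← toAdd_mul, ← map_mul, ← hde, hd, toAdd_ofAdd]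
      rw [hw]
      exact AddSubgroup.add_mem_sup hlX ⟨⟨l', hl'D⟩, hl', rfl⟩
  -- the centraliser
  have hCn : ∀ b ∈ (⊤ : Subgroup R), ∀ k ∈ Subgroup.centralizer (U : Set R),
      b * k * b⁻¹ ∈ Subgroup.centralizer (U : Set R) := by
    intro b _ k hk
    rw [Subgroup.mem_centralizer_iff] at hk ⊢
    intro u hu
    have hu' : b⁻¹ * u * b ∈ (U : Set R) := by
      have := hQ.nU.conj_mem u hu b⁻¹
      rwa [inv_inv] at this
    have h := hk _ hu'
    calc u * (b * k * b⁻¹) = b * ((b⁻¹ * u * b) * k) * b⁻¹ := by group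
      _ = b * (k * (b⁻¹ * u * b)) * b⁻¹ := by rw [h]
      _ = b * k * b⁻¹ * u := by group
  have hCRC : CR κ (Subgroup.centralizer (U : Set R)) (⊤ : AddSubgroup W) :=
    h2 R W κ ⊤ (Subgroup.centralizer (U : Set R)) ⊤ (inv_top _) hCR le_top hCn
  have hcard : Nat.card (⊤ : AddSubgroup W) = U.relIndex D := by
    rw [← cW]
    exact AddSubgroup.card_top
  have hne : (⊤ : AddSubgroup W) ≠ ⊥ := by
    intro h
    rw [h, AddSubgroup.card_bot] at hcard
    omega
  have hmain := h3 (U.relIndex D) hP R W κ (Subgroup.centralizer (U : Set R)) ⊤ hR hcard.le hne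
    (inv_top _) hCRC
  rw [hcard] at hmain
  have hrel : (Ck κ (⊤ : AddSubgroup W)).relIndex (Subgroup.centralizer (U : Set R)) =
      D.relIndex (Subgroup.centralizer (U : Set R)) := by
    rw [← Subgroup.inf_relIndex_right (Ck κ (⊤ : AddSubgroup W)),
      ← Subgroup.inf_relIndex_right D]
    congr 1
    ext c
    constructor
    · rintro ⟨hc, hcC⟩
      refine ⟨hQ.cDU c hcC ?_, hcC⟩
      intro d hd
      have hcd : c * d * c⁻¹ ∈ D := hQ.nD.conj_mem d hd c
      have e1 : κ c (Multiplicative.toAdd (f ⟨d, hd⟩)) =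
          Multiplicative.toAdd (f ⟨c * d * c⁻¹, hcd⟩) := eq c ⟨d, hd⟩ ⟨c * d * c⁻¹, hcd⟩ rfl
      rw [hc _ (AddSubgroup.mem_top _)] at e1
      have e2 : f ⟨d, hd⟩ = f ⟨c * d * c⁻¹, hcd⟩ := Multiplicative.toAdd.injective e1
      have e3 : f (⟨c * d * c⁻¹, hcd⟩ * (⟨d, hd⟩ : D)⁻¹) = 1 := by
        rw [map_mul, map_inv, ← e2, mul_inv_cancel]
      exact (fk _).1 e3
    · rintro ⟨hc, hcC⟩
      refine ⟨?_, hcC⟩
      intro w _
      obtain ⟨d, hd⟩ := fs (Multiplicative.ofAdd w)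
      have hw : w = Multiplicative.toAdd (f d) := by rw [hd, toAdd_ofAdd]
      rw [hw, eq c d ⟨c * d * c⁻¹, hconj c d⟩ rfl]
      have e3 : f (⟨c * d * c⁻¹, hconj c d⟩ * d⁻¹) = 1 := by
        rw [fk]
        exact hQ.com c hc d d.2
      rw [map_mul, map_inv, mul_inv_eq_one] at e3
      rw [e3]
  rw [hrel] at hmain
  exact hmain

end Pool.Agent.H82.FI
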