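import Pool.Agent.H6.FI.TargetsC
import Pool.Agent.H6.FI.Lib

/-!
# MP_7500ea_al, board fi_modules, row SPL: characters over an intermediate normal subgroup
helper82
-/

set_option autoImplicit false

open scoped Classical ComplexConjugate
open FI AMc AMt

namespace Pool.Agent.H82.FI

theorem over_cj {Γ : Type} [Group Γ] [Fintype Γ] (U : Subgroup Γ) (χ φ : Γ → ℂ) (hχ : χ ∈ IrrS U)
    (u : Γ) (hu : u ∈ U) : Over χ (cj u φ) ↔ Over χ φ := by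
  have h1 : ∑ g : Γ, χ g * starRingEnd ℂ (cj u φ g) = ∑ g : Γ, χ g * starRingEnd ℂ (φ g) := by
    refine Fintype.sum_equiv (MulAut.conj u).toEquiv _ _ ?_
    intro g
    have h2 := (Lib.lS1 Γ U χ hχ).2.1 u hu g
    change χ g * starRingEnd ℂ (φ (u * g * u⁻¹)) = χ (u * g * u⁻¹) * starRingEnd ℂ (φ (u * g * u⁻¹))
    rw [h2]
  unfold Over
  rw [h1]

theorem pf_SPL : T_SPL := by
  intro Γ _ _ K M U hKM hMU θ hθ c hc
  obtain ⟨fU, hfU, _⟩ := Lib.lS9 Γ U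
  obtain ⟨fM, hfM, _⟩ := Lib.lS9 Γ M
  set P : (Γ → ℂ) → Finset (Γ → ℂ) := fun φ => fU.filter fun χ => Over χ φ with hP
  have hAb : ∀ φ : Γ → ℂ, Ab U φ = ↑(P φ) := by
    intro φ
    ext χ
    simp only [hP, Finset.coe_filter, hfU]
    exact Iff.rfl
  have hkk : ∀ φ : Γ → ℂ, kk U φ = (P φ).card := by
    intro φ
    unfold kk
    rw [hAb, Set.ncard_coe_finset]
  have hdd : ∀ φ : Γ → ℂ, dd U φ = ∑ χ ∈ P φ, (χ 1).re := by
    intro φ
    unfold dd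
    rw [hAb, finsum_mem_coe_finset]
  set A : Finset (Γ → ℂ) := fM.filter fun φ => Over φ θ with hA
  have hAmem : ∀ φ, φ ∈ A ↔ φ ∈ IrrS M ∧ Over φ θ := by
    intro φ
    simp only [hA, Finset.mem_filter, hfM]
  have hPmem : ∀ φ χ, χ ∈ P φ ↔ χ ∈ IrrS U ∧ Over χ φ := by
    intro φ χ
    simp only [hP, Finset.mem_filter, hfU]
  have hT : P θ = (A.image P).biUnion id := by
    ext χ
    rw [Finset.mem_biUnion]
    constructor
    · intro h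
      obtain ⟨h1, h2⟩ := (hPmem _ _).1 h
      obtain ⟨φ, hφ, h3, h4⟩ := (Lib.lOT Γ K M U hKM hMU.1 χ h1 θ hθ).1 h2
      exact ⟨P φ, Finset.mem_image_of_mem P ((hAmem φ).2 ⟨hφ, h4⟩), (hPmem _ _).2 ⟨h1, h3⟩⟩
    · rintro ⟨p, hp, hχ⟩
      obtain ⟨φ, hφ, rfl⟩ := Finset.mem_image.1 hp
      obtain ⟨h1, h3⟩ := (hPmem _ _).1 hχ
      obtain ⟨h4, h5⟩ := (hAmem φ).1 hφ
      exact (hPmem _ _).2 ⟨h1, (Lib.lOT Γ K M U hKM hMU.1 χ h1 θ hθ).2 ⟨φ, h4, h3, h5⟩⟩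
  have hdis : Set.PairwiseDisjoint (↑(A.image P) : Set (Finset (Γ → ℂ))) id := by
    intro p hp p' hp' hne
    rw [Finset.mem_coe, Finset.mem_image] at hp hp'
    obtain ⟨φ, hφ, rfl⟩ := hp
    obtain ⟨φ', hφ', rfl⟩ := hp'
    rw [Function.onFun, id, id, Finset.disjoint_left]
    intro χ h1 h2
    apply hne
    obtain ⟨h3, h4⟩ := (hPmem _ _).1 h1
    obtain ⟨_, h5⟩ := (hPmem _ _).1 h2
    obtain ⟨u, hu, rfl⟩ := Lib.lE2 Γ M U hMU.1 hMU.2 χ h3 φ ((hAmem φ).1 hφ).1 φ'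
      ((hAmem φ').1 hφ').1 h4 h5
    ext ψ
    rw [hPmem, hPmem]
    exact and_congr_right fun h => (over_cj U ψ φ h u hu).symm
  rw [hkk, hdd, hT, Finset.sum_biUnion hdis, Finset.card_biUnion hdis, Nat.cast_sum, Finset.mul_sum]
  refine Finset.sum_le_sum fun p hp => ?_
  obtain ⟨φ, hφ, rfl⟩ := Finset.mem_image.1 hp
  obtain ⟨h4, h5⟩ := (hAmem φ).1 hφ
  have := hc φ h4 h5
  rw [hkk, hdd] at this
  exact this

end Pool.Agent.H82.FI
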